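import Mathlib
import Pool.Agent.Lib.MP_649c59_nt.Final

set_option autoImplicit false

namespace Pool.Agent.Results.MP_649c59_nt.NullLimsup

/-- There are a function `ψ ≥ 0` with divergent `∑ ψ(q) φ(q) / q` and a moving target `y` for which
the set of `x ∈ [0,1]` with infinitely many solutions of `|q x - a - y_q| < ψ(q)` is a null set. -/
theorem result : ∃ (ψ y : ℕ → ℝ), (∀ q, 0 ≤ ψ q) ∧
    ¬ Summable (fun q : ℕ => ψ q * ((Nat.totient q : ℕ) : ℝ) / (q : ℝ)) ∧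
    MeasureTheory.volume {x : ℝ | x ∈ Set.Icc (0 : ℝ) 1 ∧
      Set.Infinite {p : ℤ × ℕ | 0 < p.2 ∧
        |(p.2 : ℝ) * x - (p.1 : ℝ) - y p.2| < ψ p.2}} = 0 :=
  Pool.Agent.MTDS.exists_counterexample

end Pool.Agent.Results.MP_649c59_nt.NullLimsup
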